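import Pool.Agent.P.MP_91e9d9_gt.Defs

/-! Sanity check of the sign convention: omega (X_H, w) = - dH (w). -/

namespace Pool.Agent.P.MP_91e9d9_gt

theorem omega_hamVec {n : ℕ} (H : M n → ℝ) (x w : E n) :
    omega (hamVec H x) w = -fderiv ℝ (fun y : E n => H (proj y)) x w := by
  have hw : w = ∑ i, (w.1 i • ((Pi.single i 1, 0) : E n) + w.2 i • ((0, Pi.single i 1) : E n)) := by
    ext j
    · simp [Prod.fst_sum, Finset.sum_apply, Pi.single_apply]
    · simp [Prod.snd_sum, Finset.sum_apply, Pi.single_apply]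
  conv_rhs => rw [hw]
  unfold omega hamVec
  simp only [map_sum, map_add, map_smul, smul_eq_mul, ← Finset.sum_neg_distrib]
  exact Finset.sum_congr rfl fun i _ => by ring

end Pool.Agent.P.MP_91e9d9_gt
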