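import Mathlib

/-! The standard symplectic torus of dimension 2n, Hofer norm, displacement energy and the
Poisson bracket invariant, as in the problem file. -/

open scoped ContDiff ENNReal

namespace Pool.Agent.P.MP_91e9d9_gt

/-- the universal cover, with coordinates (q, p) -/
abbrev E (n : ℕ) := (Fin n → ℝ) × (Fin n → ℝ)

/-- the torus of dimension 2n, quotient of the cover by the integer lattice -/
abbrev M (n : ℕ) := (Fin n → UnitAddCircle) × (Fin n → UnitAddCircle)

variable {n : ℕ}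

/-- the covering map -/
def proj (x : E n) : M n :=
  (fun i => ((x.1 i : ℝ) : UnitAddCircle), fun i => ((x.2 i : ℝ) : UnitAddCircle))

/-- a function on the torus is smooth when its lift is smooth -/
def Smooth (f : M n → ℝ) : Prop := ContDiff ℝ ∞ (fun x : E n => f (proj x))

/-- the symplectic form, sum of dp_i wedge dq_i -/
def omega (v w : E n) : ℝ := ∑ i, (v.2 i * w.1 i - w.2 i * v.1 i)

/-- the Hamiltonian vector field (dH/dp, - dH/dq) at the point proj x; it is the vector X with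
omega X w = - dH w for all w -/
noncomputable def hamVec (H : M n → ℝ) (x : E n) : E n :=
  (fun i => fderiv ℝ (fun y : E n => H (proj y)) x (0, Pi.single i 1),
    fun i => -fderiv ℝ (fun y : E n => H (proj y)) x (Pi.single i 1, 0))

/-- the Poisson bracket at the point proj x -/
noncomputable def poisson (G H : M n → ℝ) (x : E n) : ℝ := -omega (hamVec G x) (hamVec H x)

/-- phi is the time-one map of the smooth time dependent Hamiltonian h -/
def IsTimeOne (h : ℝ → M n → ℝ) (φ : M n → M n) : Prop :=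
  ContDiff ℝ ∞ (fun z : ℝ × E n => h z.1 (proj z.2)) ∧
    ∀ x : E n, ∃ γ : ℝ → E n, γ 0 = x ∧
      (∀ t ∈ Set.Icc (0 : ℝ) 1, HasDerivAt γ (hamVec (h t) (γ t)) t) ∧ φ (proj x) = proj (γ 1)

/-- Hamiltonian diffeomorphisms -/
def IsHam (φ : M n → M n) : Prop := ∃ h, IsTimeOne h φ

/-- the Hofer norm -/
noncomputable def hofer (φ : M n → M n) : ℝ≥0∞ :=
  ⨅ (h : ℝ → M n → ℝ) (_ : IsTimeOne h φ),
    ENNReal.ofReal (∫ t in (0 : ℝ)..1, ((⨆ m, h t m) - ⨅ m, h t m))

def Displaceable (X : Set (M n)) : Prop := ∃ φ, IsHam φ ∧ Disjoint (φ '' X) (closure X)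

/-- displacement energy -/
noncomputable def energy (X : Set (M n)) : ℝ≥0∞ :=
  ⨅ (φ : M n → M n) (_ : IsHam φ) (_ : Disjoint (φ '' X) (closure X)), hofer φ

variable {N : ℕ}

/-- a finite open cover by displaceable sets -/
def IsDisplaceableCover (U : Fin N → Set (M n)) : Prop :=
  (∀ i, IsOpen (U i)) ∧ (⋃ i, U i) = Set.univ ∧ ∀ i, Displaceable (U i)

noncomputable def coverEnergy (U : Fin N → Set (M n)) : ℝ≥0∞ := ⨆ i, energy (U i)

/-- a positive collection subordinate to U -/
def Subordinate (F : Fin N → M n → ℝ) (U : Fin N → Set (M n)) : Prop :=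
  (∀ i, Smooth (F i)) ∧ (∀ i m, 0 ≤ F i m) ∧ (∀ m, 1 ≤ ∑ i, F i m) ∧ ∀ i, tsupport (F i) ⊆ U i

/-- the Poisson bracket invariant of a collection -/
noncomputable def pbColl (F : Fin N → M n → ℝ) : ℝ≥0∞ :=
  ⨆ (a : Fin N → ℝ) (b : Fin N → ℝ) (_ : ∀ i, |a i| ≤ 1) (_ : ∀ i, |b i| ≤ 1) (x : E n),
    ENNReal.ofReal |poisson (fun m => ∑ i, a i * F i m) (fun m => ∑ i, b i * F i m) x|

/-- the Poisson bracket invariant of a cover -/
noncomputable def pbCover (U : Fin N → Set (M n)) : ℝ≥0∞ :=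
  ⨅ (F : Fin N → M n → ℝ) (_ : Subordinate F U), pbColl F

end Pool.Agent.P.MP_91e9d9_gt
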