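import Mathlib

/-! One variable ingredients. -/

open Real Set
open scoped ContDiff

namespace Pool.Agent.P.MP_91e9d9_gt

/-- cosine with frequency k and phase s on the circle -/
noncomputable def cs (k : ℕ) (s : ℝ) (x : UnitAddCircle) : ℝ :=
  (Complex.exp (-(s * Complex.I)) * fourier (k : ℤ) x).re

lemma cs_coe (k : ℕ) (s y : ℝ) : cs k s (y : UnitAddCircle) = cos (2 * π * k * y - s) := by
  unfold cs
  rw [fourier_coe_apply, ← Complex.exp_add]
  have : -((s : ℂ) * Complex.I) + 2 * π * Complex.I * ((k : ℤ) : ℂ) * y / ((1 : ℝ) : ℂ) =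
      ((2 * π * k * y - s : ℝ) : ℂ) * Complex.I := by
    push_cast; ring
  rw [this, Complex.exp_ofReal_mul_I_re]

lemma cs_cont (k : ℕ) (s : ℝ) : Continuous (cs k s) := by
  unfold cs
  exact Complex.continuous_re.comp (continuous_const.mul (fourier (k : ℤ)).continuous)

/-- a bump -/
noncomputable def bump : ContDiffBump (0 : ℝ) := ⟨1, 2, one_pos, one_lt_two⟩

lemma bump_one {x : ℝ} (h : |x| ≤ 1) : bump x = 1 :=
  bump.one_of_mem_closedBall (by simpa [bump, Real.dist_eq] using h)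

lemma bump_zero {x : ℝ} (h : 2 ≤ |x|) : bump x = 0 :=
  bump.zero_of_le_dist (by simpa [bump, Real.dist_eq] using h)

lemma bump_smooth : ContDiff ℝ ∞ (bump : ℝ → ℝ) := bump.contDiff

lemma bump_deriv_zero {x : ℝ} (h : bump x = 0) : deriv (bump : ℝ → ℝ) x = 0 := by
  apply IsLocalMin.deriv_eq_zero
  exact Filter.Eventually.of_forall fun y => by rw [h]; exact bump.nonneg

lemma bump_deriv_bdd : ∃ B : ℝ, 0 ≤ B ∧ ∀ x, |deriv (bump : ℝ → ℝ) x| ≤ B := by
  obtain ⟨B, hB⟩ := (bump_smooth.continuous_deriv (by simp)).bounded_above_of_compact_support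
    bump.hasCompactSupport.deriv
  exact ⟨B, le_trans (norm_nonneg _) (hB 0), hB⟩

/-- the sharp bumps in the base -/
noncomputable def be (k L : ℕ) (a : ℕ) (y : ℝ) : ℝ :=
  bump (2 * L * cos (2 * π * k * y - a * π / L))

lemma be_nonneg (k L a : ℕ) (y : ℝ) : 0 ≤ be k L a y := bump.nonneg

lemma be_le_one (k L a : ℕ) (y : ℝ) : be k L a y ≤ 1 := bump.le_one

lemma be_smooth (k L a : ℕ) : ContDiff ℝ ∞ (be k L a) := by
  unfold be
  exact bump_smooth.comp (by fun_prop)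

lemma be_hasDeriv (k L a : ℕ) (y : ℝ) : HasDerivAt (be k L a)
    (deriv (bump : ℝ → ℝ) (2 * L * cos (2 * π * k * y - a * π / L)) *
      (2 * L * (-sin (2 * π * k * y - a * π / L) * (2 * π * k)))) y := by
  have h1 : HasDerivAt (fun y : ℝ => 2 * π * k * y - a * π / L) (2 * π * k) y := by
    simpa using ((hasDerivAt_id y).const_mul (2 * π * k)).sub_const (a * π / L)
  have h2 := (h1.cos).const_mul (2 * (L : ℝ))
  have h3 := ((bump_smooth.differentiable (by simp))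
    (2 * L * cos (2 * π * k * y - a * π / L))).hasDerivAt
  exact h3.comp y h2

lemma be_deriv_zero (k L a : ℕ) (y : ℝ) (h : be k L a y = 0) : deriv (be k L a) y = 0 := by
  rw [(be_hasDeriv k L a y).deriv, bump_deriv_zero h, zero_mul]

lemma be_deriv_le {B : ℝ} (hB0 : 0 ≤ B) (hB : ∀ x, |deriv (bump : ℝ → ℝ) x| ≤ B) (k L a : ℕ)
    (y : ℝ) : |deriv (be k L a) y| ≤ B * (4 * π * k * L) := by
  rw [(be_hasDeriv k L a y).deriv, abs_mul]
  apply mul_le_mul (hB _) _ (abs_nonneg _) hB0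
  have h1 := abs_sin_le_one (2 * π * k * y - a * π / L)
  have h2 : 0 ≤ 4 * π * k * L := by positivity
  have e : 2 * (L : ℝ) * (-sin (2 * π * k * y - a * π / L) * (2 * π * k)) =
      -(sin (2 * π * k * y - a * π / L) * (4 * π * k * L)) := by ring
  rw [e, abs_neg, abs_mul, abs_of_nonneg h2]
  exact mul_le_of_le_one_left h2 h1

lemma sin_ge (L j : ℕ) (hj : 1 ≤ j) (hjL : j < L) : 2 / (L : ℝ) ≤ sin (j * π / L) := by
  have hL : (0 : ℝ) < L := by exact_mod_cast (by omega : 0 < L)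
  have key : ∀ i : ℕ, 1 ≤ i → 2 * i ≤ L → 2 / (L : ℝ) ≤ sin (i * π / L) := by
    intro i hi hiL
    have hi' : (1 : ℝ) ≤ i := by exact_mod_cast hi
    have hiL' : 2 * (i : ℝ) ≤ L := by exact_mod_cast hiL
    have h1 := Real.mul_le_sin (x := i * π / L) (by positivity) (by
      rw [div_le_div_iff₀ hL (by norm_num)]; nlinarith [pi_pos])
    refine le_trans ?_ h1
    have : 2 / π * (i * π / L) = 2 * i / L := by field_simp
    rw [this]
    gcongr
    linarith
  by_cases h : 2 * j ≤ L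
  · exact key j hj h
  · have h2 := key (L - j) (by omega) (by omega)
    rw [Nat.cast_sub hjL.le] at h2
    have : ((L : ℝ) - j) * π / L = π - j * π / L := by field_simp
    rwa [this, sin_pi_sub] at h2

lemma be_abs_lt {k L a : ℕ} {y : ℝ} (hL : 0 < L) (h : be k L a y ≠ 0) :
    |cos (2 * π * k * y - a * π / L)| < 1 / L := by
  by_contra hc
  push Not at hc
  apply h
  apply bump_zero
  have hL' : (0 : ℝ) < L := by exact_mod_cast hL
  rw [abs_mul, abs_of_pos (by positivity : (0 : ℝ) < 2 * L)]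
  rw [div_le_iff₀ hL'] at hc
  linarith

lemma be_disj_aux {k L a b : ℕ} {y : ℝ} (hab : a < b) (hb : b < L) (h1 : be k L a y ≠ 0)
    (h2 : be k L b y ≠ 0) : False := by
  have hL : 0 < L := by omega
  have hL' : (0 : ℝ) < L := by exact_mod_cast hL
  have h3 := be_abs_lt hL h1
  have h4 := be_abs_lt hL h2
  have h5 := sin_ge L (b - a) (by omega) (by omega)
  rw [Nat.cast_sub hab.le] at h5
  set A := 2 * π * k * y - a * π / L
  set B := 2 * π * k * y - b * π / L
  have e : ((b : ℝ) - a) * π / L = A - B := by simp only [A, B]; ring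
  rw [e, sin_sub] at h5
  have h6 : sin A * cos B ≤ |cos B| := by
    refine (le_abs_self _).trans ?_
    rw [abs_mul]; exact mul_le_of_le_one_left (abs_nonneg _) (abs_sin_le_one _)
  have h7 : -(cos A * sin B) ≤ |cos A| := by
    refine (neg_le_abs _).trans ?_
    rw [abs_mul]; exact mul_le_of_le_one_right (abs_nonneg _) (abs_sin_le_one _)
  have h8 : 2 / (L : ℝ) = 1 / L + 1 / L := by ring
  linarith

lemma be_disj {k L : ℕ} {a b : Fin L} {y : ℝ} (h1 : be k L a y ≠ 0) (h2 : be k L b y ≠ 0) :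
    a = b := by
  rcases lt_trichotomy (a : ℕ) b with h | h | h
  · exact (be_disj_aux h b.2 h1 h2).elim
  · exact Fin.ext h
  · exact (be_disj_aux h a.2 h2 h1).elim

lemma sum_le_of_disj {ι : Type*} [Fintype ι] (u v : ι → ℝ) (K : ℝ) (hK : 0 ≤ K)
    (hd : ∀ a b, u a ≠ 0 → u b ≠ 0 → a = b) (h0 : ∀ a, u a = 0 → v a = 0)
    (hv : ∀ a, v a ≤ K) : ∑ a, v a ≤ K := by
  classical
  by_cases h : ∃ a, u a ≠ 0
  · obtain ⟨a, ha⟩ := h
    rw [Finset.sum_eq_single a]
    · exact hv a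
    · intro b _ hb
      apply h0
      by_contra hc
      exact hb (hd b a hc ha)
    · simp
  · push Not at h
    rw [Finset.sum_eq_zero fun a _ => h0 a (h a)]
    exact hK

lemma sum_be_le (k L : ℕ) (y : ℝ) : ∑ a : Fin L, be k L a y ≤ 1 :=
  sum_le_of_disj (fun a : Fin L => be k L a y) _ 1 zero_le_one (fun _ _ => be_disj)
    (fun _ h => h) (fun _ => be_le_one _ _ _ _)

lemma sum_be_deriv_le {B : ℝ} (hB0 : 0 ≤ B) (hB : ∀ x, |deriv (bump : ℝ → ℝ) x| ≤ B) (k L : ℕ)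
    (y : ℝ) : ∑ a : Fin L, |deriv (be k L a) y| ≤ B * (4 * π * k * L) :=
  sum_le_of_disj (fun a : Fin L => be k L a y) _ _ (by positivity) (fun _ _ => be_disj)
    (fun a h => by rw [be_deriv_zero k L a y h, abs_zero])
    (fun _ => be_deriv_le hB0 hB _ _ _ _)

lemma be_one {k L a : ℕ} {y : ℝ} (hL : 0 < L)
    (h : |cos (2 * π * k * y - a * π / L)| ≤ 1 / (2 * L)) : be k L a y = 1 := by
  apply bump_one
  have hL' : (0 : ℝ) < L := by exact_mod_cast hL
  rw [abs_mul, abs_of_pos (by positivity : (0 : ℝ) < 2 * L)]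
  rw [le_div_iff₀ (by positivity)] at h
  linarith

/-! The fixed partition of unity in the fibre. -/

noncomputable def wt (α : Fin 4) (y : ℝ) : ℝ :=
  expNegInvGlue (cos (2 * π * (1 : ℕ) * y - α * π / 2) - 1 / 3)

lemma wt_nonneg (α : Fin 4) (y : ℝ) : 0 ≤ wt α y := expNegInvGlue.nonneg _

lemma wt_smooth (α : Fin 4) : ContDiff ℝ ∞ (wt α) := by
  unfold wt
  exact expNegInvGlue.contDiff.comp (by fun_prop)

lemma exists_cos (θ : ℝ) : ∃ α : Fin 4, 1 / 2 < cos (θ - α * π / 2) := by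
  by_contra h
  push Not at h
  have h0 := h 0
  have h1 := h 1
  have h2 := h 2
  have h3 := h 3
  simp only [Fin.val_zero, Nat.cast_zero, zero_mul, zero_div, sub_zero] at h0
  have e1 : θ - ((1 : Fin 4) : ℕ) * π / 2 = θ - π / 2 := by norm_num
  have e2 : θ - ((2 : Fin 4) : ℕ) * π / 2 = θ - π := by
    rw [show ((2 : Fin 4) : ℕ) = 2 from rfl]; push_cast; ring
  have e3 : θ - ((3 : Fin 4) : ℕ) * π / 2 = (θ - π) - π / 2 := by
    rw [show ((3 : Fin 4) : ℕ) = 3 from rfl]; push_cast; ring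
  rw [e1, cos_sub_pi_div_two] at h1
  rw [e2, cos_sub_pi] at h2
  rw [e3, cos_sub_pi_div_two, sin_sub_pi] at h3
  nlinarith [sin_sq_add_cos_sq θ]

lemma wt_sum_pos (y : ℝ) : 0 < ∑ α, wt α y := by
  obtain ⟨α, hα⟩ := exists_cos (2 * π * (1 : ℕ) * y)
  refine Finset.sum_pos' (fun β _ => wt_nonneg β y) ⟨α, Finset.mem_univ _, ?_⟩
  exact expNegInvGlue.pos_of_pos (by linarith)

noncomputable def ch (α : Fin 4) (y : ℝ) : ℝ := wt α y / ∑ β, wt β y

lemma ch_nonneg (α : Fin 4) (y : ℝ) : 0 ≤ ch α y := div_nonneg (wt_nonneg α y) (wt_sum_pos y).le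

lemma ch_sum (y : ℝ) : ∑ α, ch α y = 1 := by
  unfold ch
  rw [← Finset.sum_div, div_self (wt_sum_pos y).ne']

lemma ch_smooth (α : Fin 4) : ContDiff ℝ ∞ (ch α) :=
  (wt_smooth α).div (ContDiff.sum fun β _ => wt_smooth β) fun y => (wt_sum_pos y).ne'

lemma ch_zero {α : Fin 4} {y : ℝ} (h : cos (2 * π * (1 : ℕ) * y - α * π / 2) ≤ 1 / 3) :
    ch α y = 0 := by
  unfold ch wt
  rw [expNegInvGlue.zero_of_nonpos (by linarith), zero_div]

lemma wt_per (α : Fin 4) (y : ℝ) : wt α (y + 1) = wt α y := by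
  unfold wt
  have : 2 * π * (1 : ℕ) * (y + 1) - α * π / 2 = (2 * π * (1 : ℕ) * y - α * π / 2) + 2 * π := by
    push_cast; ring
  rw [this, cos_add_two_pi]

lemma ch_deriv_bdd : ∃ D : ℝ, 0 ≤ D ∧ ∀ α y, |deriv (ch α) y| ≤ D := by
  have h : ∀ α : Fin 4, ∃ D : ℝ, ∀ y, |deriv (ch α) y| ≤ D := by
    intro α
    have hp : Function.Periodic (deriv (ch α)) 1 := by
      intro y
      have : (fun z => ch α (z + 1)) = ch α := by
        funext z; unfold ch; simp only [wt_per]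
      rw [← deriv_comp_add_const, this]
    have hb := hp.isBounded_of_continuous one_ne_zero ((ch_smooth α).continuous_deriv (by simp))
    obtain ⟨D, hD⟩ := hb.exists_norm_le
    exact ⟨D, fun y => hD _ ⟨y, rfl⟩⟩
  choose D hD using h
  refine ⟨∑ α, |D α|, Finset.sum_nonneg fun _ _ => abs_nonneg _, fun α y => ?_⟩
  exact ((hD α y).trans (le_abs_self _)).trans
    (Finset.single_le_sum (f := fun α => |D α|) (fun _ _ => abs_nonneg _) (Finset.mem_univ α))

/-! The zigzag function. -/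

lemma arg_lt {l : ℝ} (h0 : 0 ≤ l) (h1 : l < 1) (θ : ℝ) :
    l * sin θ ≠ -1 ∧ l * sin θ ≠ 1 := by
  have h := abs_sin_le_one θ
  have h2 : |l * sin θ| < 1 := by
    rw [abs_mul, abs_of_nonneg h0]
    exact lt_of_le_of_lt (mul_le_of_le_one_right h0 h) h1
  have := abs_lt.1 h2
  exact ⟨this.1.ne', this.2.ne⟩

noncomputable def zig (l : ℝ) (k : ℕ) (s y : ℝ) : ℝ :=
  arcsin (l * sin (2 * π * k * y - s)) / (4 * π * k)

noncomputable def slope' (l c : ℝ) : ℝ := l * c / √(1 - l ^ 2 * (1 - c ^ 2))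

lemma zig_smooth {l : ℝ} (h0 : 0 ≤ l) (h1 : l < 1) (k : ℕ) (s : ℝ) : ContDiff ℝ ∞ (zig l k s) := by
  unfold zig
  apply ContDiff.div_const
  rw [contDiff_iff_contDiffAt]
  intro y
  have h := arg_lt h0 h1 (2 * π * k * y - s)
  exact (Real.contDiffAt_arcsin h.1 h.2).comp y
    (f := fun y : ℝ => l * sin (2 * π * k * y - s)) (by fun_prop)

lemma zig_deriv {l : ℝ} (h0 : 0 ≤ l) (h1 : l < 1) {k : ℕ} (hk : 0 < k) (s y : ℝ) :
    HasDerivAt (zig l k s) (slope' l (cos (2 * π * k * y - s)) / 2) y := by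
  have hk' : (0 : ℝ) < k := by exact_mod_cast hk
  have h := arg_lt h0 h1 (2 * π * k * y - s)
  have h1 : HasDerivAt (fun y : ℝ => 2 * π * k * y - s) (2 * π * k) y := by
    simpa using ((hasDerivAt_id y).const_mul (2 * π * k)).sub_const s
  have h2 := (h1.sin).const_mul l
  have h3 := ((Real.hasDerivAt_arcsin h.1 h.2).comp y h2).div_const (4 * π * k)
  refine HasDerivAt.congr_deriv h3 ?_
  unfold slope'
  have e : 1 - l ^ 2 * (1 - cos (2 * π * k * y - s) ^ 2) =
      1 - (l * sin (2 * π * k * y - s)) ^ 2 := by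
    rw [mul_pow, sin_sq]
  rw [e]
  have := pi_pos
  field_simp
  ring

lemma zig_abs (l : ℝ) {k : ℕ} (hk : 0 < k) (s y : ℝ) : |zig l k s y| ≤ 1 / (8 * k) := by
  have hk' : (0 : ℝ) < k := by exact_mod_cast hk
  have := pi_pos
  unfold zig
  rw [abs_div, abs_of_pos (by positivity : 0 < 4 * π * k), div_le_div_iff₀ (by positivity)
    (by positivity)]
  have h : |arcsin (l * sin (2 * π * k * y - s))| ≤ π / 2 :=
    abs_le.2 ⟨neg_pi_div_two_le_arcsin _, arcsin_le_pi_div_two _⟩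
  nlinarith

lemma slope_sq {l c η : ℝ} (hη0 : 0 < η) (hη1 : η ≤ 1) (hl : l = 1 - η ^ 2 / 128)
    (hc : η ≤ |c|) : 16 / 17 ≤ slope' l c ^ 2 ∧ slope' l c ^ 2 ≤ 1 := by
  have hη2 : η ^ 2 ≤ 1 := pow_le_one₀ hη0.le hη1
  have hη3 : 0 < η ^ 2 := by positivity
  have hc2 : η ^ 2 ≤ c ^ 2 := by
    rw [← sq_abs c]; gcongr
  have hl1 : 1 / 4 ≤ l ^ 2 := by nlinarith
  have hl2 : 1 - l ^ 2 ≤ η ^ 2 / 64 := by nlinarith
  have hl3 : 0 ≤ 1 - l ^ 2 := by nlinarith
  have h4 : c ^ 2 / 4 ≤ l ^ 2 * c ^ 2 := by nlinarith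
  have hpos : 0 < 1 - l ^ 2 * (1 - c ^ 2) := by nlinarith
  unfold slope'
  rw [div_pow, Real.sq_sqrt hpos.le, mul_pow]
  constructor
  · rw [le_div_iff₀ hpos]; nlinarith
  · rw [div_le_one hpos]; nlinarith

lemma displace {θ t : ℝ} (hθ : 1 / 4 < cos θ) (h1 : 16 / 17 ≤ t ^ 2) (h2 : t ^ 2 ≤ 1) :
    cos (θ - π * t) < 1 / 4 := by
  have hpi := pi_pos
  have hpi4 := pi_lt_four
  have ha0 : 0 ≤ |t| := abs_nonneg t
  have hsq : |t| ^ 2 = t ^ 2 := sq_abs t
  have ha1 : |t| ≤ 1 := by nlinarith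
  have ha2 : 16 / 17 ≤ |t| := by nlinarith
  have hc : cos (π * t) ≤ 0 := by
    have : cos (π * t) = cos (π * |t|) := by
      rw [← cos_abs (π * t), abs_mul, abs_of_pos hpi]
    rw [this]
    apply cos_nonpos_of_pi_div_two_le_of_le <;> nlinarith
  have hs : |sin (π * t)| ≤ 4 / 17 := by
    have e : |sin (π * t)| = |sin (π - π * |t|)| := by
      rw [sin_pi_sub]
      rcases abs_cases t with h | h
      · rw [h.1]
      · rw [h.1, mul_neg, sin_neg, abs_neg]
    rw [e]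
    refine (abs_sin_le_abs).trans ?_
    rw [abs_of_nonneg (by nlinarith)]
    nlinarith
  rw [cos_sub]
  have h3 : sin θ * sin (π * t) ≤ 4 / 17 := by
    refine (le_abs_self _).trans ?_
    rw [abs_mul]
    exact (mul_le_of_le_one_left (abs_nonneg _) (abs_sin_le_one _)).trans hs
  nlinarith

end Pool.Agent.P.MP_91e9d9_gt
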