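import Pool.Agent.P.MP_91e9d9_gt.Defs
import Pool.Agent.P.MP_91e9d9_gt.One

/-! The covers. -/

open Real Set
open scoped ContDiff ENNReal

namespace Pool.Agent.P.MP_91e9d9_gt

variable {n : ℕ}

lemma proj_surj (m : M n) : ∃ x : E n, proj x = m := by
  have h : ∀ c : UnitAddCircle, ∃ y : ℝ, (y : UnitAddCircle) = c := fun c =>
    QuotientAddGroup.mk_surjective c
  choose r hr using h
  exact ⟨(fun i => r (m.1 i), fun i => r (m.2 i)), by simp [proj, hr]⟩

lemma fd_q {u : ℝ → ℝ} (hu : Differentiable ℝ u) (j : Fin n) (x : E n) :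
    HasFDerivAt (fun y : E n => u (y.1 j))
      (deriv u (x.1 j) • ((ContinuousLinearMap.proj j).comp (ContinuousLinearMap.fst ℝ _ _) :
        E n →L[ℝ] ℝ)) x :=
  (hu (x.1 j)).hasDerivAt.comp_hasFDerivAt x
    ((ContinuousLinearMap.proj j).comp (ContinuousLinearMap.fst ℝ _ _) : E n →L[ℝ] ℝ).hasFDerivAt

lemma fd_p {u : ℝ → ℝ} (hu : Differentiable ℝ u) (j : Fin n) (x : E n) :
    HasFDerivAt (fun y : E n => u (y.2 j))
      (deriv u (x.2 j) • ((ContinuousLinearMap.proj j).comp (ContinuousLinearMap.snd ℝ _ _) :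
        E n →L[ℝ] ℝ)) x :=
  (hu (x.2 j)).hasDerivAt.comp_hasFDerivAt x
    ((ContinuousLinearMap.proj j).comp (ContinuousLinearMap.snd ℝ _ _) : E n →L[ℝ] ℝ).hasFDerivAt

lemma fd_prod {u1 u2 u3 w1 w2 : ℝ → ℝ} (h1 : Differentiable ℝ u1) (h2 : Differentiable ℝ u2)
    (h3 : Differentiable ℝ u3) (h4 : Differentiable ℝ w1) (h5 : Differentiable ℝ w2) (c : ℝ)
    (i0 i1 : Fin n) (x v : E n) :
    fderiv ℝ (fun y : E n => c * (1 - u3 (y.1 i1) * (u1 (y.1 i0) - u2 (y.1 i0))) *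
      (w1 (y.2 i0) * w2 (y.2 i1))) x v =
      -(c * (deriv u3 (x.1 i1) * v.1 i1 * (u1 (x.1 i0) - u2 (x.1 i0)) +
          u3 (x.1 i1) * ((deriv u1 (x.1 i0) - deriv u2 (x.1 i0)) * v.1 i0))) *
        (w1 (x.2 i0) * w2 (x.2 i1)) +
      c * (1 - u3 (x.1 i1) * (u1 (x.1 i0) - u2 (x.1 i0))) *
        (deriv w1 (x.2 i0) * v.2 i0 * w2 (x.2 i1) + w1 (x.2 i0) * (deriv w2 (x.2 i1) * v.2 i1)) := by
  have h := ((((fd_q h3 i1 x).fun_mul ((fd_q h1 i0 x).fun_sub (fd_q h2 i0 x))).const_sub 1).const_mul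
    c).fun_mul ((fd_p h4 i0 x).fun_mul (fd_p h5 i1 x))
  rw [h.fderiv]
  simp
  ring

lemma fd_sum {u1 u2 : ℝ → ℝ} (h1 : Differentiable ℝ u1) (h2 : Differentiable ℝ u2)
    (i0 i1 : Fin n) (x v : E n) :
    fderiv ℝ (fun y : E n => u1 (y.1 i0) + u2 (y.1 i1)) x v =
      deriv u1 (x.1 i0) * v.1 i0 + deriv u2 (x.1 i1) * v.1 i1 := by
  have h := (fd_q h1 i0 x).fun_add (fd_q h2 i1 x)
  rw [h.fderiv]
  simp

/-- the general bound for the bracket -/
lemma pbColl_le {N : ℕ} (F : Fin N → M n → ℝ) (hF : ∀ i, Smooth (F i)) (Kq Kp : ℝ)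
    (hq : ∀ x j, ∑ i, |fderiv ℝ (fun y : E n => F i (proj y)) x (Pi.single j 1, 0)| ≤ Kq)
    (hp : ∀ x j, ∑ i, |fderiv ℝ (fun y : E n => F i (proj y)) x (0, Pi.single j 1)| ≤ Kp) :
    pbColl F ≤ ENNReal.ofReal (2 * n * Kq * Kp) := by
  have key : ∀ (a : Fin N → ℝ), (∀ i, |a i| ≤ 1) → ∀ (x v : E n),
      |fderiv ℝ (fun y : E n => ∑ i, a i * F i (proj y)) x v| ≤
        ∑ i, |fderiv ℝ (fun y : E n => F i (proj y)) x v| := by
    intro a ha x v
    have h : HasFDerivAt (fun y : E n => ∑ i, a i * F i (proj y))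
        (∑ i, a i • fderiv ℝ (fun y : E n => F i (proj y)) x) x :=
      HasFDerivAt.fun_sum fun i _ =>
        (((hF i).differentiable (by simp)) x).hasFDerivAt.const_mul (a i)
    rw [h.fderiv]
    simp only [_root_.sum_apply, _root_.smul_apply, smul_eq_mul]
    refine (Finset.abs_sum_le_sum_abs _ _).trans (Finset.sum_le_sum fun i _ => ?_)
    rw [abs_mul]
    exact mul_le_of_le_one_left (abs_nonneg _) (ha i)
  unfold pbColl
  refine iSup_le fun a => iSup_le fun b => iSup_le fun ha => iSup_le fun hb => iSup_le fun x => ?_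
  apply ENNReal.ofReal_le_ofReal
  unfold poisson omega hamVec
  rw [abs_neg]
  refine (Finset.abs_sum_le_sum_abs _ _).trans ?_
  have : 2 * n * Kq * Kp = ∑ _j : Fin n, 2 * Kq * Kp := by simp; ring
  rw [this]
  refine Finset.sum_le_sum fun j _ => ?_
  have a1 := (key a ha x (Pi.single j 1, 0)).trans (hq x j)
  have a2 := (key a ha x (0, Pi.single j 1)).trans (hp x j)
  have b1 := (key b hb x (Pi.single j 1, 0)).trans (hq x j)
  have b2 := (key b hb x (0, Pi.single j 1)).trans (hp x j)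
  have hKq : 0 ≤ Kq := (abs_nonneg _).trans a1
  refine (abs_sub _ _).trans ?_
  simp only [abs_mul, abs_neg]
  have c1 := mul_le_mul a1 b2 (abs_nonneg _) hKq
  have c2 := mul_le_mul b1 a2 (abs_nonneg _) hKq
  linarith

/-! Functions on the circle. -/

noncomputable def beC (k L a : ℕ) (x : UnitAddCircle) : ℝ := bump (2 * L * cs k (a * π / L) x)

lemma beC_coe (k L a : ℕ) (y : ℝ) : beC k L a (y : UnitAddCircle) = be k L a y := by
  simp [beC, be, cs_coe]

noncomputable def chC (α : Fin 4) (x : UnitAddCircle) : ℝ :=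
  expNegInvGlue (cs 1 (α * π / 2) x - 1 / 3) / ∑ β : Fin 4, expNegInvGlue (cs 1 (β * π / 2) x - 1 / 3)

lemma chC_coe (α : Fin 4) (y : ℝ) : chC α (y : UnitAddCircle) = ch α y := by
  simp only [chC, ch, wt, cs_coe]

noncomputable def zigC (l : ℝ) (k : ℕ) (s : ℝ) (x : UnitAddCircle) : ℝ :=
  arcsin (l * cs k (s + π / 2) x) / (4 * π * k)

lemma zigC_coe (l : ℝ) (k : ℕ) (s y : ℝ) : zigC l k s (y : UnitAddCircle) = zig l k s y := by
  unfold zigC zig
  rw [cs_coe, ← sub_sub, cos_sub_pi_div_two]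

abbrev Idx (L : ℕ) := (Fin L × Fin L) × (Fin 4 × Fin 4)

section

variable (i0 i1 : Fin n) (k L : ℕ) (σ : Equiv.Perm (Fin L))

noncomputable def FF (ι : Idx L) (m : M n) : ℝ :=
  (1 / (L : ℝ) ^ 2) * (1 - beC k L ι.1.2 (m.1 i1) * (beC k L ι.1.1 (m.1 i0) - beC k L (σ ι.1.1) (m.1 i0))) *
    (chC ι.2.1 (m.2 i0) * chC ι.2.2 (m.2 i1))

def UU (ι : Idx L) : Set (M n) :=
  {m | 1 / 4 < cs 1 (ι.2.1 * π / 2) (m.2 i0)} ∩ {m | 1 / 4 < cs 1 (ι.2.2 * π / 2) (m.2 i1)} ∩
    ({m | 1 / (4 * (L : ℝ)) < |cs k (ι.1.1 * π / L) (m.1 i0)|} ∪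
      {m | 1 / (4 * (L : ℝ)) < |cs k (ι.1.2 * π / L) (m.1 i1)|})

lemma FF_proj (ι : Idx L) : (fun y : E n => FF i0 i1 k L σ ι (proj y)) = fun y : E n =>
    (1 / (L : ℝ) ^ 2) * (1 - be k L ι.1.2 (y.1 i1) *
      (be k L ι.1.1 (y.1 i0) - be k L (σ ι.1.1) (y.1 i0))) *
      (ch ι.2.1 (y.2 i0) * ch ι.2.2 (y.2 i1)) := by
  funext y
  simp only [FF, proj, beC_coe, chC_coe]

lemma FF_smooth (ι : Idx L) : Smooth (FF i0 i1 k L σ ι) := by
  unfold Smooth
  rw [FF_proj]
  have h1 : ∀ a (j : Fin n), ContDiff ℝ ∞ (fun y : E n => be k L a (y.1 j)) := fun a j =>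
    (be_smooth k L a).comp (by fun_prop)
  have h2 : ∀ a (j : Fin n), ContDiff ℝ ∞ (fun y : E n => ch a (y.2 j)) := fun a j =>
    (ch_smooth a).comp (by fun_prop)
  exact (contDiff_const.mul (contDiff_const.sub ((h1 _ _).mul ((h1 _ _).sub (h1 _ _))))).mul
    ((h2 _ _).mul (h2 _ _))

lemma g_nonneg (a b : Fin L) (y z : ℝ) :
    0 ≤ (1 / (L : ℝ) ^ 2) * (1 - be k L b z * (be k L a y - be k L (σ a) y)) := by
  apply mul_nonneg (by positivity)
  have h1 := be_nonneg k L b z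
  have h2 := be_le_one k L b z
  have h3 := be_nonneg k L (σ a) y
  have h4 := be_le_one k L a y
  nlinarith

lemma g_sum (hL : 0 < L) (y z : ℝ) : ∑ ab : Fin L × Fin L,
    (1 / (L : ℝ) ^ 2) * (1 - be k L ab.2 z * (be k L ab.1 y - be k L (σ ab.1) y)) = 1 := by
  have hL' : (L : ℝ) ≠ 0 := by exact_mod_cast hL.ne'
  rw [← Finset.mul_sum, Finset.sum_sub_distrib, Fintype.sum_prod_type_right]
  have h : ∑ a : Fin L, (be k L a y - be k L (σ a) y) = 0 := by
    rw [Finset.sum_sub_distrib, Equiv.sum_comp σ (fun a : Fin L => be k L a y), sub_self]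
  simp only [← Finset.mul_sum, h, Fintype.sum_prod_type_right]
  simp
  field_simp

lemma w_sum (y z : ℝ) : ∑ ab : Fin 4 × Fin 4, ch ab.1 y * ch ab.2 z = 1 := by
  rw [Fintype.sum_prod_type]
  simp only [← Finset.mul_sum, ch_sum, mul_one]

lemma FF_nonneg (ι : Idx L) (m : M n) : 0 ≤ FF i0 i1 k L σ ι m := by
  obtain ⟨x, rfl⟩ := proj_surj m
  have : FF i0 i1 k L σ ι (proj x) = _ := congrFun (FF_proj i0 i1 k L σ ι) x
  rw [this]
  exact mul_nonneg (g_nonneg k L σ _ _ _ _) (mul_nonneg (ch_nonneg _ _) (ch_nonneg _ _))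

lemma FF_sum (hL : 0 < L) (m : M n) : ∑ ι, FF i0 i1 k L σ ι m = 1 := by
  obtain ⟨x, rfl⟩ := proj_surj m
  have h : ∀ ι, FF i0 i1 k L σ ι (proj x) = _ := fun ι => congrFun (FF_proj i0 i1 k L σ ι) x
  simp only [h]
  rw [Fintype.sum_prod_type]
  simp only [← Finset.mul_sum (f := fun ab : Fin 4 × Fin 4 => ch ab.1 (x.2 i0) * ch ab.2 (x.2 i1)),
    w_sum, mul_one]
  exact g_sum k L σ hL _ _

lemma UU_open (ι : Idx L) : IsOpen (UU i0 i1 k L ι) := by
  have h := cs_cont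
  refine ((isOpen_lt continuous_const ((h _ _).comp (by fun_prop))).inter
    (isOpen_lt continuous_const ((h _ _).comp (by fun_prop)))).inter
    ((isOpen_lt continuous_const (((h _ _).comp (by fun_prop)).abs)).union
      (isOpen_lt continuous_const (((h _ _).comp (by fun_prop)).abs)))

lemma FF_supp (hL : 0 < L) (hσ : ∀ a, σ a ≠ a) (ι : Idx L) :
    tsupport (FF i0 i1 k L σ ι) ⊆ UU i0 i1 k L ι := by
  have hL' : (0 : ℝ) < L := by exact_mod_cast hL
  have h := cs_cont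
  set Z : Set (M n) :=
    {m | 1 / 3 ≤ cs 1 (ι.2.1 * π / 2) (m.2 i0)} ∩ {m | 1 / 3 ≤ cs 1 (ι.2.2 * π / 2) (m.2 i1)} ∩
    ({m | 1 / (2 * (L : ℝ)) ≤ |cs k (ι.1.1 * π / L) (m.1 i0)|} ∪
      {m | 1 / (2 * (L : ℝ)) ≤ |cs k (ι.1.2 * π / L) (m.1 i1)|}) with hZ
  have hZc : IsClosed Z :=
    ((isClosed_le continuous_const ((h _ _).comp (by fun_prop))).inter
    (isClosed_le continuous_const ((h _ _).comp (by fun_prop)))).inter
    ((isClosed_le continuous_const (((h _ _).comp (by fun_prop)).abs)).union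
      (isClosed_le continuous_const (((h _ _).comp (by fun_prop)).abs)))
  have hlt : 1 / (4 * (L : ℝ)) < 1 / (2 * L) := by
    apply one_div_lt_one_div_of_lt (by positivity); linarith
  have h1 : Function.support (FF i0 i1 k L σ ι) ⊆ Z := by
    intro m hm
    obtain ⟨x, rfl⟩ := proj_surj m
    have e : FF i0 i1 k L σ ι (proj x) = _ := congrFun (FF_proj i0 i1 k L σ ι) x
    rw [Function.mem_support, e] at hm
    simp only [hZ, proj, mem_inter_iff, mem_union, mem_ofPred_eq, cs_coe]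
    refine ⟨⟨?_, ?_⟩, ?_⟩
    · by_contra hc
      apply hm
      rw [ch_zero (not_le.1 hc).le]; ring
    · by_contra hc
      apply hm
      rw [ch_zero (α := ι.2.2) (not_le.1 hc).le]; ring
    · by_contra hc
      push Not at hc
      apply hm
      have b1 := be_one hL hc.1.le
      have b2 := be_one hL hc.2.le
      have b3 : be k L (σ ι.1.1) (x.1 i0) = 0 := by
        by_contra hne
        exact hσ _ (be_disj hne (by rw [b1]; exact one_ne_zero))
      rw [b1, b2, b3]; ring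
  refine (closure_minimal h1 hZc).trans ?_
  rintro m ⟨⟨h2, h3⟩, h4⟩
  have h13 : (1 / 4 : ℝ) < 1 / 3 := by norm_num
  refine ⟨⟨h13.trans_le h2, h13.trans_le h3⟩, ?_⟩
  rcases h4 with h4 | h4
  · exact Or.inl (lt_of_lt_of_le hlt h4)
  · exact Or.inr (lt_of_lt_of_le hlt h4)

lemma single_abs (j i : Fin n) : |(Pi.single j (1 : ℝ) : Fin n → ℝ) i| ≤ 1 := by
  by_cases h : i = j
  · subst h; simp
  · simp [h]

lemma FF_dq (hL : 0 < L) {B : ℝ} (hB0 : 0 ≤ B) (hB : ∀ x, |deriv (bump : ℝ → ℝ) x| ≤ B)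
    (x : E n) (j : Fin n) :
    ∑ ι, |fderiv ℝ (fun y : E n => FF i0 i1 k L σ ι (proj y)) x (Pi.single j 1, 0)| ≤
      16 * π * B * k / L := by
  have hL' : (0 : ℝ) < L := by exact_mod_cast hL
  have hb : ∀ a, Differentiable ℝ (be k L a) := fun a => (be_smooth k L a).differentiable (by simp)
  have hc : ∀ a, Differentiable ℝ (ch a) := fun a => (ch_smooth a).differentiable (by simp)
  set y := x.1 i0
  set z := x.1 i1
  have key : ∀ ι : Idx L,
      |fderiv ℝ (fun y : E n => FF i0 i1 k L σ ι (proj y)) x (Pi.single j 1, 0)| ≤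
      (1 / (L : ℝ) ^ 2) * (|deriv (be k L ι.1.2) z| * (be k L ι.1.1 y + be k L (σ ι.1.1) y) +
        be k L ι.1.2 z * (|deriv (be k L ι.1.1) y| + |deriv (be k L (σ ι.1.1)) y|)) *
        (ch ι.2.1 (x.2 i0) * ch ι.2.2 (x.2 i1)) := by
    intro ι
    rw [FF_proj, fd_prod (hb _) (hb _) (hb _) (hc _) (hc _)]
    simp only [Pi.zero_apply, mul_zero, zero_mul, add_zero]
    have hw : 0 ≤ ch ι.2.1 (x.2 i0) * ch ι.2.2 (x.2 i1) :=
      mul_nonneg (ch_nonneg _ _) (ch_nonneg _ _)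
    rw [abs_mul, abs_neg, abs_of_nonneg hw, abs_mul, abs_of_pos (by positivity : 0 < 1 / (L : ℝ) ^ 2)]
    gcongr
    refine (abs_add_le _ _).trans (add_le_add ?_ ?_)
    · rw [abs_mul, abs_mul]
      apply mul_le_mul (mul_le_of_le_one_right (abs_nonneg _) (single_abs _ _)) _ (abs_nonneg _)
        (abs_nonneg _)
      refine (abs_sub _ _).trans ?_
      rw [abs_of_nonneg (be_nonneg _ _ _ _), abs_of_nonneg (be_nonneg _ _ _ _)]
    · rw [abs_mul, abs_mul, abs_of_nonneg (be_nonneg _ _ _ _)]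
      apply mul_le_mul_of_nonneg_left _ (be_nonneg _ _ _ _)
      exact (mul_le_of_le_one_right (abs_nonneg _) (single_abs _ _)).trans (abs_sub _ _)
  refine (Finset.sum_le_sum fun ι _ => key ι).trans ?_
  rw [Fintype.sum_prod_type]
  simp only [← Finset.mul_sum, w_sum, mul_one]
  rw [Finset.sum_add_distrib, Fintype.sum_prod_type_right, Fintype.sum_prod_type_right]
  simp only [← Finset.mul_sum, ← Finset.sum_mul, Finset.sum_add_distrib]
  rw [Equiv.sum_comp σ (fun a : Fin L => be k L a y),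
    Equiv.sum_comp σ (fun a : Fin L => |deriv (be k L a) y|)]
  have s1 := sum_be_le k L y
  have s2 := sum_be_le k L z
  have s3 := sum_be_deriv_le hB0 hB k L y
  have s4 := sum_be_deriv_le hB0 hB k L z
  have p1 : 0 ≤ ∑ a : Fin L, be k L a y := Finset.sum_nonneg fun _ _ => be_nonneg _ _ _ _
  have p3 : 0 ≤ ∑ a : Fin L, |deriv (be k L a) y| := Finset.sum_nonneg fun _ _ => abs_nonneg _
  have hK : 0 ≤ B * (4 * π * k * L) := by positivity
  have t1 := mul_le_mul s4 (add_le_add s1 s1) (by linarith) hK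
  have t2 := mul_le_mul s2 (add_le_add s3 s3) (by linarith) zero_le_one
  have e : 16 * π * B * k / L = (1 / (L : ℝ) ^ 2) * (4 * (B * (4 * π * k * L))) := by
    field_simp; ring
  rw [e]
  apply mul_le_mul_of_nonneg_left _ (by positivity)
  linarith

lemma FF_dp (hL : 0 < L) {D : ℝ} (hD : ∀ α y, |deriv (ch α) y| ≤ D) (x : E n) (j : Fin n) :
    ∑ ι, |fderiv ℝ (fun y : E n => FF i0 i1 k L σ ι (proj y)) x (0, Pi.single j 1)| ≤ 8 * D := by
  have hb : ∀ a, Differentiable ℝ (be k L a) := fun a => (be_smooth k L a).differentiable (by simp)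
  have hc : ∀ a, Differentiable ℝ (ch a) := fun a => (ch_smooth a).differentiable (by simp)
  have key : ∀ ι : Idx L,
      |fderiv ℝ (fun y : E n => FF i0 i1 k L σ ι (proj y)) x (0, Pi.single j 1)| ≤
      (1 / (L : ℝ) ^ 2) * (1 - be k L ι.1.2 (x.1 i1) *
        (be k L ι.1.1 (x.1 i0) - be k L (σ ι.1.1) (x.1 i0))) *
        (D * (ch ι.2.2 (x.2 i1) + ch ι.2.1 (x.2 i0))) := by
    intro ι
    rw [FF_proj, fd_prod (hb _) (hb _) (hb _) (hc _) (hc _)]
    simp only [Pi.zero_apply, mul_zero, zero_mul, add_zero, neg_zero, zero_add]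
    rw [abs_mul, abs_of_nonneg (g_nonneg k L σ _ _ _ _)]
    apply mul_le_mul_of_nonneg_left _ (g_nonneg k L σ _ _ _ _)
    rw [mul_add]
    refine (abs_add_le _ _).trans (add_le_add ?_ ?_)
    · rw [abs_mul, abs_mul, abs_of_nonneg (ch_nonneg _ _)]
      apply mul_le_mul_of_nonneg_right _ (ch_nonneg _ _)
      exact (mul_le_of_le_one_right (abs_nonneg _) (single_abs _ _)).trans (hD _ _)
    · rw [abs_mul, abs_mul, abs_of_nonneg (ch_nonneg _ _), mul_comm D]
      apply mul_le_mul_of_nonneg_left _ (ch_nonneg _ _)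
      exact (mul_le_of_le_one_right (abs_nonneg _) (single_abs _ _)).trans (hD _ _)
  refine (Finset.sum_le_sum fun ι _ => key ι).trans ?_
  rw [Fintype.sum_prod_type]
  have e : ∑ ab : Fin 4 × Fin 4, D * (ch ab.2 (x.2 i1) + ch ab.1 (x.2 i0)) = 8 * D := by
    rw [← Finset.mul_sum, Finset.sum_add_distrib, Fintype.sum_prod_type,
      Fintype.sum_prod_type_right]
    simp only [ch_sum]
    simp
    ring
  simp only [← Finset.mul_sum (f := fun ab : Fin 4 × Fin 4 =>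
    D * (ch ab.2 (x.2 i1) + ch ab.1 (x.2 i0))), e]
  rw [← Finset.sum_mul, g_sum k L σ hL, one_mul]

/-- the displacing Hamiltonian and its time-one map -/
lemma displace_UU (hne : i0 ≠ i1) (hk : 0 < k) (hL : 0 < L) (ι : Idx L) :
    ∃ (h : ℝ → M n → ℝ) (φ : M n → M n), IsTimeOne h φ ∧
      Disjoint (φ '' UU i0 i1 k L ι) (closure (UU i0 i1 k L ι)) ∧
      (∫ t in (0 : ℝ)..1, ((⨆ m, h t m) - ⨅ m, h t m)) ≤ 1 / (2 * k) := by
  have hL' : (0 : ℝ) < L := by exact_mod_cast hL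
  have hL1 : (1 : ℝ) ≤ L := by exact_mod_cast hL
  have hk' : (0 : ℝ) < k := by exact_mod_cast hk
  set η : ℝ := 1 / (4 * L) with hη
  have hη0 : 0 < η := by positivity
  have hη1 : η ≤ 1 := by rw [hη, div_le_one (by positivity)]; linarith
  set l : ℝ := 1 - η ^ 2 / 128 with hl
  have hl0 : 0 ≤ l := by nlinarith
  have hl1 : l < 1 := by have : 0 < η ^ 2 := by positivity
                         linarith
  set s0 : ℝ := ι.1.1 * π / L
  set s1 : ℝ := ι.1.2 * π / L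
  set H : M n → ℝ := fun m => zigC l k s0 (m.1 i0) + zigC l k s1 (m.1 i1) with hH
  have Hp : (fun y : E n => H (proj y)) = fun y => zig l k s0 (y.1 i0) + zig l k s1 (y.1 i1) := by
    funext y; simp only [hH, proj, zigC_coe]
  set T : (Fin n → UnitAddCircle) → Fin n → ℝ := fun q j =>
    slope' l (cs k s0 (q i0)) / 2 * (Pi.single j (1 : ℝ) : Fin n → ℝ) i0 +
      slope' l (cs k s1 (q i1)) / 2 * (Pi.single j (1 : ℝ) : Fin n → ℝ) i1 with hT
  have hz : ∀ s, Differentiable ℝ (zig l k s) := fun s =>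
    (zig_smooth hl0 hl1 k s).differentiable (by simp)
  have hv : ∀ x : E n, hamVec H x = (0, -T (proj x).1) := by
    intro x
    unfold hamVec
    rw [Hp]
    simp only [fd_sum (hz _) (hz _), (zig_deriv hl0 hl1 hk _ _).deriv]
    ext j
    · simp
    · simp [hT, proj, cs_coe]
  refine ⟨fun _ => H, fun m => (m.1, fun j => m.2 j - ((T m.1 j : ℝ) : UnitAddCircle)), ⟨?_, ?_⟩,
    ?_, ?_⟩
  · have : ContDiff ℝ ∞ (fun y : E n => H (proj y)) := by
      rw [Hp]
      exact ((zig_smooth hl0 hl1 k s0).comp (by fun_prop)).add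
        ((zig_smooth hl0 hl1 k s1).comp (by fun_prop))
    exact this.comp contDiff_snd
  · intro x
    refine ⟨fun t => (x.1, x.2 - t • T (proj x).1), by simp, fun t _ => ?_, ?_⟩
    · rw [hv]
      apply HasDerivAt.prodMk (hasDerivAt_const _ _)
      have := ((hasDerivAt_id t).smul_const (T (proj x).1)).const_sub x.2
      simpa [proj] using this
    · simp [proj]
  · rw [Set.disjoint_left]
    rintro _ ⟨m, hm, rfl⟩ hcl
    obtain ⟨x, rfl⟩ := proj_surj m
    have hc := cs_cont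
    have hsub : closure (UU i0 i1 k L ι) ⊆ {m | 1 / 4 ≤ cs 1 (ι.2.1 * π / 2) (m.2 i0)} ∩
        {m | 1 / 4 ≤ cs 1 (ι.2.2 * π / 2) (m.2 i1)} := by
      apply closure_minimal
      · rintro m ⟨⟨h1, h2⟩, _⟩
        simp only [mem_ofPred_eq] at h1 h2
        exact ⟨h1.le, h2.le⟩
      · exact (isClosed_le continuous_const ((hc _ _).comp (by fun_prop))).inter
          (isClosed_le continuous_const ((hc _ _).comp (by fun_prop)))
    obtain ⟨c0, c1⟩ := hsub hcl
    obtain ⟨⟨h1, h2⟩, h3⟩ := hm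
    simp only [mem_ofPred_eq, proj, cs_coe] at h1 h2
    simp only [mem_ofPred_eq, proj, hT, ← AddCircle.coe_sub, cs_coe, Pi.single_eq_same,
      Pi.single_eq_of_ne hne, Pi.single_eq_of_ne hne.symm, mul_zero, mul_one, add_zero,
      zero_add] at c0 c1
    rcases h3 with h3 | h3
    · simp only [mem_ofPred_eq, proj, cs_coe] at h3
      obtain ⟨t1, t2⟩ := slope_sq hη0 hη1 hl h3.le
      have := displace h1 t1 t2
      apply absurd c0
      rw [not_le]
      refine lt_of_eq_of_lt ?_ this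
      congr 1
      push_cast; ring
    · simp only [mem_ofPred_eq, proj, cs_coe] at h3
      obtain ⟨t1, t2⟩ := slope_sq hη0 hη1 hl h3.le
      have := displace h2 t1 t2
      apply absurd c1
      rw [not_le]
      refine lt_of_eq_of_lt ?_ this
      congr 1
      push_cast; ring
  · have hb : ∀ m, |H m| ≤ 1 / (4 * k) := by
      intro m
      obtain ⟨x, rfl⟩ := proj_surj m
      have e : H (proj x) = _ := congrFun Hp x
      rw [e]
      refine (abs_add_le _ _).trans ?_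
      have a1 := zig_abs l hk s0 (x.1 i0)
      have a2 := zig_abs l hk s1 (x.1 i1)
      have : 1 / (4 * (k : ℝ)) = 1 / (8 * k) + 1 / (8 * k) := by field_simp; ring
      linarith
    have u1 : (⨆ m, H m) ≤ 1 / (4 * k) := ciSup_le fun m => (abs_le.1 (hb m)).2
    have u2 : -(1 / (4 * k)) ≤ ⨅ m, H m := le_ciInf fun m => (abs_le.1 (hb m)).1
    simp only [intervalIntegral.integral_const, sub_zero, one_smul]
    have : 1 / (2 * (k : ℝ)) = 1 / (4 * k) + 1 / (4 * k) := by field_simp; ring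
    linarith

end

/-- one member of the sequence -/
theorem exists_cover (hn : 2 ≤ n) : ∃ C : ℝ, ∀ k : ℕ, 0 < k →
    ∃ (N : ℕ) (U : Fin N → Set (M n)) (F : Fin N → M n → ℝ), IsDisplaceableCover U ∧
      (Subordinate F U ∧ ∀ m, ∑ i, F i m = 1) ∧ pbColl F ≤ ENNReal.ofReal (C / k) ∧
      coverEnergy U ≤ ENNReal.ofReal (1 / (2 * k)) := by
  obtain ⟨B, hB0, hB⟩ := bump_deriv_bdd
  obtain ⟨D, hD0, hD⟩ := ch_deriv_bdd
  refine ⟨2 * n * (16 * π * B) * (8 * D), fun k hk => ?_⟩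
  set i0 : Fin n := ⟨0, by omega⟩
  set i1 : Fin n := ⟨1, by omega⟩
  have hne : i0 ≠ i1 := by simp [i0, i1]
  set L : ℕ := k ^ 2 + 2 with hLdef
  have hL : 0 < L := by omega
  obtain ⟨σ, hσ⟩ : ∃ σ : Equiv.Perm (Fin L), ∀ a, σ a ≠ a :=
    ⟨Equiv.addRight (1 : Fin (k ^ 2 + 2)), fun a => by simp⟩
  set e := (Fintype.equivFin (Idx L)).symm
  have hsum : ∀ m, ∑ i, FF i0 i1 k L σ (e i) m = 1 := fun m => by
    rw [Equiv.sum_comp e (fun ι => FF i0 i1 k L σ ι m)]
    exact FF_sum i0 i1 k L σ hL m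
  refine ⟨_, fun i => UU i0 i1 k L (e i), fun i => FF i0 i1 k L σ (e i), ⟨?_, ?_, ?_⟩,
    ⟨⟨?_, ?_, ?_, ?_⟩, hsum⟩, ?_, ?_⟩
  · exact fun i => UU_open _ _ _ _ _
  · rw [Set.eq_univ_iff_forall]
    intro m
    by_contra hc
    have h0 : ∀ i, FF i0 i1 k L σ (e i) m = 0 := by
      intro i
      by_contra h
      exact hc (mem_iUnion.2 ⟨i, FF_supp i0 i1 k L σ hL hσ _ (subset_tsupport _ h)⟩)
    have := hsum m
    simp [h0] at this
  · intro i
    obtain ⟨h, φ, h1, h2, _⟩ := displace_UU i0 i1 k L hne hk hL (e i)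
    exact ⟨φ, ⟨h, h1⟩, h2⟩
  · exact fun i => FF_smooth _ _ _ _ _ _
  · exact fun i m => FF_nonneg _ _ _ _ _ _ _
  · exact fun m => (hsum m).ge
  · exact fun i => FF_supp i0 i1 k L σ hL hσ _
  · refine (pbColl_le _ (fun i => FF_smooth _ _ _ _ _ _) (16 * π * B * k / L) (8 * D) ?_ ?_).trans ?_
    · intro x j
      rw [Equiv.sum_comp e (fun ι =>
        |fderiv ℝ (fun y : E n => FF i0 i1 k L σ ι (proj y)) x (Pi.single j 1, 0)|)]
      exact FF_dq i0 i1 k L σ hL hB0 hB x j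
    · intro x j
      rw [Equiv.sum_comp e (fun ι =>
        |fderiv ℝ (fun y : E n => FF i0 i1 k L σ ι (proj y)) x (0, Pi.single j 1)|)]
      exact FF_dp i0 i1 k L σ hL hD x j
    · apply ENNReal.ofReal_le_ofReal
      have hk' : (0 : ℝ) < k := by exact_mod_cast hk
      have hL' : (0 : ℝ) < L := by exact_mod_cast hL
      have h1 : (k : ℝ) / L ≤ 1 / k := by
        rw [div_le_div_iff₀ hL' hk', hLdef]; push_cast; nlinarith
      have h2 : 0 ≤ 2 * n * (16 * π * B) * (8 * D) := by positivity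
      calc 2 * n * (16 * π * B * k / L) * (8 * D) = 2 * n * (16 * π * B) * (8 * D) * (k / L) := by
            ring
        _ ≤ 2 * n * (16 * π * B) * (8 * D) * (1 / k) := by gcongr
        _ = _ := by ring
  · refine iSup_le fun i => ?_
    obtain ⟨h, φ, h1, h2, h3⟩ := displace_UU i0 i1 k L hne hk hL (e i)
    refine iInf_le_of_le φ (iInf_le_of_le ⟨h, h1⟩ (iInf_le_of_le h2 ?_))
    exact iInf_le_of_le h (iInf_le_of_le h1 (ENNReal.ofReal_le_ofReal h3))

open Filter Topology in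
theorem main (hn : 2 ≤ n) :
    ∃ (N : ℕ → ℕ) (U : ∀ k, Fin (N k) → Set (M n)) (F : ∀ k, Fin (N k) → M n → ℝ),
      (∀ k, IsDisplaceableCover (U k)) ∧
      (∀ k, Subordinate (F k) (U k) ∧ ∀ m, ∑ i, F k i m = 1) ∧
      Tendsto (fun k => pbColl (F k)) atTop (𝓝 0) ∧
      Tendsto (fun k => coverEnergy (U k)) atTop (𝓝 0) ∧
      Tendsto (fun k => pbCover (U k) * coverEnergy (U k)) atTop (𝓝 0) := by
  obtain ⟨C, hC⟩ := exists_cover hn
  choose N U F h1 h2 h3 h4 using fun k : ℕ => hC (k + 1) (Nat.succ_pos k)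
  have t0 : ∀ c : ℝ, Tendsto (fun k : ℕ => ENNReal.ofReal (c / ((k + 1 : ℕ) : ℝ))) atTop (𝓝 0) := by
    intro c
    have := (tendsto_const_div_atTop_nhds_zero_nat c).comp (tendsto_add_atTop_nat 1)
    simpa using ENNReal.tendsto_ofReal this
  have t1 : Tendsto (fun k => pbColl (F k)) atTop (𝓝 0) :=
    tendsto_of_tendsto_of_tendsto_of_le_of_le tendsto_const_nhds (t0 C) (fun _ => zero_le) h3
  have t2 : Tendsto (fun k => coverEnergy (U k)) atTop (𝓝 0) := by
    refine tendsto_of_tendsto_of_tendsto_of_le_of_le tendsto_const_nhds (t0 (1 / 2))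
      (fun _ => zero_le) fun k => (h4 k).trans (le_of_eq ?_)
    rw [div_div]
  refine ⟨N, U, F, h1, h2, t1, t2, ?_⟩
  have t3 := ENNReal.Tendsto.mul t1 (Or.inr ENNReal.zero_ne_top) t2 (Or.inr ENNReal.zero_ne_top)
  rw [mul_zero] at t3
  refine tendsto_of_tendsto_of_tendsto_of_le_of_le tendsto_const_nhds t3 (fun _ => zero_le)
    fun k => ?_
  exact mul_le_mul_left (iInf_le_of_le (F k) (iInf_le _ (h2 k).1)) _

end Pool.Agent.P.MP_91e9d9_gt
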